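import Pool.Agent.H16.FK.TargetsA

/-!
Row LR of the board `hci_modules` (project on `MP_5607ba_lc`): isomorphisms preserve the enriched
types.
-/

set_option autoImplicit false

namespace Pool.Agent.H74.FK

open Set Pool.Agent.H75.HCI Pool.Agent.H16.FK

section

variable {kx k : ℕ} {L : Type} {T : List (Idx kx k) → L}

theorem lr_blw_bd (l : List (Idx kx k)) : ∀ p ∈ l, p.1 < bd l := by
  intro p hp
  have h1 : p.1 + 1 ≤ (l.map fun q => q.1 + 1).sum :=
    List.le_sum_of_mem (List.mem_map.2 ⟨p, hp, rfl⟩)
  rw [bd]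
  omega

theorem lr_miss (l : List (Idx kx k)) (i m : ℕ) (h : bd l ≤ i) : Miss i m l := by
  intro y hy
  have := lr_blw_bd l _ hy
  dsimp only at this
  omega

/-- The visible part has finitely many points in the first chunks. -/
theorem lr_fin (s : ℕ → ℕ) (n : ℕ) : {p | p ∈ V kx k s ∧ p.1 < n}.Finite := by
  classical
  refine Set.Finite.subset ((((Finset.range n ×ˢ (Finset.univ : Finset (Fin kx))).image
      (fun q => ((q.1, .inl q.2) : Idx kx k)) ∪
      ((Finset.range n).biUnion fun i => (Finset.range (s i) ×ˢ (Finset.univ : Finset (Fin k))).image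
        (fun q => ((i, .inr q) : Idx kx k))) : Finset (Idx kx k))).finite_toSet) ?_
  rintro ⟨i, z⟩ ⟨hV, hi⟩
  dsimp only at hi
  rw [Finset.mem_coe, Finset.mem_union]
  rcases z with b | q
  · left
    rw [Finset.mem_image]
    exact ⟨(i, b), Finset.mem_product.2 ⟨Finset.mem_range.2 hi, Finset.mem_univ _⟩, rfl⟩
  · right
    rw [Finset.mem_biUnion]
    refine ⟨i, Finset.mem_range.2 hi, ?_⟩
    rw [Finset.mem_image]
    exact ⟨q, Finset.mem_product.2 ⟨Finset.mem_range.2 (hV q rfl), Finset.mem_univ _⟩, rfl⟩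

theorem lr_late {s s' : ℕ → ℕ} {g : Idx kx k → Idx kx k} (hk : 1 ≤ k) (hs : ∀ i, 1 ≤ s i)
    (hI : Iso T g s s') (M N : ℕ) :
    ∃ i, M ≤ i ∧ ∀ y : Fin k, N ≤ (g (i, .inr (0, y))).1 := by
  classical
  by_contra hcon
  push Not at hcon
  have hV : ∀ i (y : Fin k), ((i, .inr (0, y)) : Idx kx k) ∈ V kx k s := by
    intro i y q hq
    simp only [Sum.inr.injEq] at hq
    rw [← hq]
    exact hs i
  have : Nonempty (Fin k) := ⟨⟨0, hk⟩⟩
  choose! y hy using hcon
  refine Set.infinite_of_injOn_mapsTo (s := {i | M ≤ i})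
    (f := fun i => g (i, .inr (0, y i))) (t := {p | p ∈ V kx k s' ∧ p.1 < N}) ?_ ?_
    (Set.infinite_of_forall_exists_gt fun a =>
      ⟨max M (a + 1), show M ≤ max M (a + 1) from le_max_left _ _, by omega⟩)
    (lr_fin s' N)
  · intro i _ j _ h
    have h1 := hI.inj (hV i (y i)) (hV j (y j)) h
    simp only [Prod.mk.injEq] at h1
    exact h1.1
  · intro i hi
    refine ⟨?_, hy i hi⟩
    rw [← hI.img]
    exact ⟨_, hV i (y i), rfl⟩

theorem lr_sel_append {α : Type} (l : List α) (w w' : List ℕ) :
    sel l (w ++ w') = sel l w ++ sel l w' := by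
  unfold sel
  rw [List.filterMap_append]

theorem lr_sel_left {α : Type} (X Y : List α) (w : List ℕ) (hw : ∀ i ∈ w, i < X.length) :
    sel (X ++ Y) w = sel X w := by
  unfold sel
  refine List.filterMap_congr fun i hi => ?_
  rw [List.getElem?_append_left (hw i hi)]

theorem lr_sel_right {α : Type} (X Y : List α) (w : List ℕ) :
    sel (X ++ Y) (w.map fun i => X.length + i) = sel Y w := by
  unfold sel
  rw [List.filterMap_map]
  refine List.filterMap_congr fun i _ => ?_
  simp only [Function.comp]
  rw [List.getElem?_append_right (by omega)]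
  congr 1
  omega

theorem lr_swap (hF : FTx T) {X Y X' Y' : List (Idx kx k)} (hX : X.length = X'.length)
    (hY : Y.length = Y'.length) (h : T (X ++ Y) = T (X' ++ Y')) : T (Y ++ X) = T (Y' ++ X') := by
  have h1 := hF (X ++ Y) (X' ++ Y')
    (((List.range Y.length).map fun i => X.length + i) ++ List.range X.length)
    (by rw [List.length_append, List.length_append, hX, hY]) h
  rw [lr_sel_append, lr_sel_append, lr_sel_right,
    lr_sel_left X Y _ fun i hi => List.mem_range.1 hi,
    sel_range, sel_range, hX, hY, lr_sel_right,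
    lr_sel_left X' Y' _ fun i hi => List.mem_range.1 hi, sel_range, sel_range] at h1
  exact h1

theorem lr_prt_mem {i m : ℕ} {a : List (Fin k)} {p : Idx kx k} (h : p ∈ prt i m a) :
    ∃ y ∈ a, p = (i, .inr (m, y)) := by
  rw [prt, List.mem_map] at h
  obtain ⟨y, hy, rfl⟩ := h
  exact ⟨y, hy, rfl⟩

/-- The type of a tuple in later chunks with the type of a part. -/
theorem lr_tp (hW : T_TPW) (hT : AX T) (p : List (Idx kx k)) (a : List (Fin k)) (i m : ℕ)
    (hA : Abv 1 p) (hn : p.Nodup) (hl : p.length = a.length) (ha : a.Nodup)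
    (hak : a.length < k) (hi : 1 ≤ i) (h : T p = T (prt i m a)) : TP T p = TP T (prt i m a) := by
  classical
  funext B
  by_cases hB : Good B
  · set R : List (ℕ × ℕ × List (Fin k)) := B.zipIdx.map fun q => (0, q.2, q.1) with hR
    have hRB : R.map (fun q => q.2.2) = B := by
      rw [hR, List.map_map]
      exact List.zipIdx_map_fst 0 B
    have hRn : (R.map fun q => (q.1, q.2.1)).Nodup := by
      rw [hR, List.map_map]
      have h1 : (B.zipIdx.map Prod.snd).Nodup := by
        rw [List.zipIdx_map_snd]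
        exact List.nodup_range'
      have h2 : B.zipIdx.map ((fun q : ℕ × ℕ × List (Fin k) => (q.1, q.2.1)) ∘
          fun q : List (Fin k) × ℕ => (0, q.2, q.1)) =
          (B.zipIdx.map Prod.snd).map fun j => (0, j) := by
        rw [List.map_map]
        rfl
      rw [h2]
      exact h1.map fun x y hxy => by simpa using hxy
    have hR0 : ∀ q ∈ R, q.1 = 0 := by
      intro q hq
      rw [hR, List.mem_map] at hq
      obtain ⟨_, _, rfl⟩ := hq
      rfl
    set F : List (Idx kx k) := (R.map fun q : ℕ × ℕ × List (Fin k) => prt q.1 q.2.1 q.2.2).flatten with hF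
    have hFB : Blw 1 F := by
      intro x hx
      rw [hF, List.mem_flatten] at hx
      obtain ⟨l, hl, hxl⟩ := hx
      rw [List.mem_map] at hl
      obtain ⟨q, hq, rfl⟩ := hl
      obtain ⟨y, _, rfl⟩ := lr_prt_mem hxl
      dsimp only
      rw [hR0 q hq]
      exact Nat.one_pos
    have h1 := hW kx k L T hT p R hRn (fun q hq y hy => by
      have := hA _ hy
      dsimp only at this
      rw [hR0 q hq] at this
      omega) (by rw [hRB]; exact hB)
    have h2 := hW kx k L T hT (prt i m a) R hRn (fun q hq y hy => by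
      obtain ⟨z, _, hz⟩ := lr_prt_mem hy
      rw [Prod.mk.injEq, hR0 q hq] at hz
      omega) (by rw [hRB]; exact hB)
    rw [hRB] at h1 h2
    rw [← h1, ← h2]
    refine lr_swap hT.ft rfl ?_ (hT.t4 1 F p i m a hFB hA hn hl ha hak ?_ h)
    · rw [hl, prt, List.length_map]
    · intro y hy
      have := hFB _ hy
      dsimp only at this
      omega
  · unfold TP
    rw [if_neg hB, if_neg hB, h]

theorem lr_frs (n : ℕ) (A : List (List (Fin k))) (a : List (Fin k)) :
    (frs n (A ++ [a]) : List (Idx kx k)) = frs n A ++ prt n A.length a := by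
  rw [frs, frs, List.zipIdx_append, List.map_append, List.flatten_append]
  simp

theorem lr_frs_mem (n : ℕ) (A : List (List (Fin k))) (p : Idx kx k) (h : p ∈ frs n A) :
    p.1 = n ∧ ∃ q : ℕ × Fin k, p.2 = .inr q ∧ q.1 < A.length := by
  rw [frs, List.mem_flatten] at h
  obtain ⟨l, hl, hpl⟩ := h
  rw [List.mem_map] at hl
  obtain ⟨q, hq, rfl⟩ := hl
  obtain ⟨y, _, rfl⟩ := lr_prt_mem hpl
  refine ⟨rfl, _, rfl, ?_⟩
  have h1 := List.snd_lt_of_mem_zipIdx hq
  simpa using h1

theorem lr_tp_nil (l : List (Idx kx k)) : TP T l [] = T l := by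
  unfold TP
  have h1 : Good ([] : List (List (Fin k))) := fun a ha => absurd ha (List.not_mem_nil)
  rw [if_pos h1]
  simp [frs]

theorem lr_main (hW : T_TPW) (hX : T_TPX) (hT : AX T) (hk : 1 ≤ k) {s s' : ℕ → ℕ}
    {g : Idx kx k → Idx kx k} (hs : ∀ i, 1 ≤ s i) (hI : Iso T g s s') (l : List (Idx kx k))
    (A : List (List (Fin k))) : Good A →
    ∃ R : List (ℕ × ℕ × List (Fin k)), R.map (fun q => q.2.2) = A ∧
      (R.map fun q => (q.1, q.2.1)).Nodup ∧ (∀ q ∈ R, bd l ≤ q.1 ∧ q.2.1 = 0) ∧
      ((l ++ (R.map fun q : ℕ × ℕ × List (Fin k) => prt q.1 q.2.1 q.2.2).flatten).map g).length =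
        (l.map g ++ frs (bd (l.map g)) A).length ∧
      TP T ((l ++ (R.map fun q : ℕ × ℕ × List (Fin k) => prt q.1 q.2.1 q.2.2).flatten).map g) =
        TP T (l.map g ++ frs (bd (l.map g)) A) := by
  have hXT := hX kx k L T hT
  have hV : ∀ i (y : Fin k), ((i, .inr (0, y)) : Idx kx k) ∈ V kx k s := by
    intro i y q hq
    simp only [Sum.inr.injEq] at hq
    rw [← hq]
    exact hs i
  induction A using List.reverseRecOn with
  | nil =>
    intro _
    refine ⟨[], rfl, List.nodup_nil, fun q hq => absurd hq (List.not_mem_nil), ?_, ?_⟩ <;>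
      simp [frs]
  | append_singleton A a ih =>
    intro hG
    have hGA : Good A := fun b hb => hG b (List.mem_append_left _ hb)
    obtain ⟨ha1, ha2⟩ := hG a (List.mem_append_right _ (List.mem_singleton.2 rfl))
    obtain ⟨R, r1, r2, r3, r4, r5⟩ := ih hGA
    set D : List (Idx kx k) := (l ++ (R.map fun q : ℕ × ℕ × List (Fin k) => prt q.1 q.2.1 q.2.2).flatten).map g with hD
    obtain ⟨i, hi1, hi2⟩ := lr_late hk hs hI (bd l + (R.map fun q => q.1 + 1).sum) (bd D + 1)
    have hiR : ∀ q ∈ R, q.1 < i := by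
      intro q hq
      have h1 : q.1 + 1 ≤ (R.map fun q => q.1 + 1).sum :=
        List.le_sum_of_mem (List.mem_map.2 ⟨q, hq, rfl⟩)
      omega
    refine ⟨R ++ [(i, 0, a)], ?_, ?_, ?_, ?_, ?_⟩
    · rw [List.map_append, r1]
      rfl
    · rw [List.map_append]
      refine List.nodup_append.2 ⟨r2, List.nodup_singleton _, ?_⟩
      intro x hx y hy hxy
      rw [List.mem_map] at hx
      obtain ⟨q, hq, rfl⟩ := hx
      simp only [List.map_cons, List.map_nil, List.mem_singleton] at hy
      rw [hy, Prod.mk.injEq] at hxy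
      have := hiR q hq
      omega
    · intro q hq
      rcases List.mem_append.1 hq with h1 | h1
      · exact r3 q h1
      · rw [List.mem_singleton] at h1
        rw [h1]
        exact ⟨by dsimp only; omega, rfl⟩
    all_goals
      have hsplit : (l ++ ((R ++ [(i, 0, a)]).map fun q : ℕ × ℕ × List (Fin k) => prt q.1 q.2.1 q.2.2).flatten).map g =
          D ++ (prt i 0 a : List (Idx kx k)).map g := by
        rw [hD, List.map_append (l₁ := R), List.flatten_append, ← List.append_assoc,
          List.map_append]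
        simp
    · rw [hsplit, List.length_append, r4, lr_frs]
      simp only [List.length_append, List.length_map, prt]
      omega
    · set p : List (Idx kx k) := (prt i 0 a : List (Idx kx k)).map g with hp
      have hpV : ∀ x ∈ (prt i 0 a : List (Idx kx k)), x ∈ V kx k s := by
        intro x hx
        obtain ⟨y, _, rfl⟩ := lr_prt_mem hx
        exact hV i y
      have hpa : Abv (bd D + 1) p := by
        intro x hx
        rw [hp, List.mem_map] at hx
        obtain ⟨z, hz, rfl⟩ := hx
        obtain ⟨y, _, rfl⟩ := lr_prt_mem hz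
        exact hi2 y
      have hpn : p.Nodup := by
        rw [hp]
        refine (List.nodup_map_iff_inj_on ?_).2 fun x hx y hy h => hI.inj (hpV x hx) (hpV y hy) h
        rw [prt]
        exact ha1.map fun x y h => by simpa using h
      have hpl : p.length = a.length := by
        rw [hp, List.length_map, prt, List.length_map]
      have hpT : T p = T (prt (bd D + 1) 0 a) := by
        rw [hp, hI.lab _ hpV]
        have := hT.t3 [] i 0 (bd D + 1) 0 a ha1 ha2 (fun y hy => absurd hy (List.not_mem_nil))
          (fun y hy => absurd hy (List.not_mem_nil))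
        simpa using this
      have e1 : TP T p = TP T (prt (bd D + 1) 0 a) :=
        lr_tp hW hT p a (bd D + 1) 0 (fun x hx => by have := hpa x hx; omega) hpn hpl ha1 ha2
          (by omega) hpT
      have hmD : Miss (bd D + 1) 0 D := lr_miss D _ _ (by omega)
      have e2 := hXT.t4 (bd D + 1) D p (bd D + 1) 0 a
        (fun x hx => by have := lr_blw_bd D x hx; omega) hpa hpn hpl ha1 ha2 hmD e1
      have hmF : Miss (bd (l.map g)) A.length (l.map g ++ frs (bd (l.map g)) A) := by
        intro y hy
        rcases List.mem_append.1 hy with h1 | h1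
        · exact lr_miss (l.map g) (bd (l.map g)) A.length le_rfl y h1
        · obtain ⟨_, q, h2, h3⟩ := lr_frs_mem _ _ _ h1
          simp only [Sum.inr.injEq] at h2
          rw [← h2] at h3
          exact absurd h3 (lt_irrefl _)
      have e3 := hXT.ext D (l.map g ++ frs (bd (l.map g)) A) (bd D + 1) 0 (bd (l.map g)) A.length a
        r4 r5 ha1 ha2 hmD hmF
      rw [hsplit, e2, e3, lr_frs, List.append_assoc]

theorem pf_LR (h1 : T_TPW) (h2 : T_TPX) : T_LR := by
  classical
  intro kx k L T s s' g hT hk hs hI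
  refine ⟨hI.inj, hI.img, fun l hl => ?_⟩
  funext A
  by_cases hA : Good A
  · obtain ⟨R, r1, r2, r3, _, r5⟩ := lr_main h1 h2 hT hk hs hI l A hA
    have e1 := congrFun r5 []
    rw [lr_tp_nil, lr_tp_nil] at e1
    have e2 : TP T (l.map g) A = T (l.map g ++ frs (bd (l.map g)) A) := by
      unfold TP
      rw [if_pos hA]
    have e3 := h1 kx k L T hT l R r2 (fun q hq => lr_miss l _ _ (r3 q hq).1) (by rw [r1]; exact hA)
    rw [r1] at e3
    rw [e2, ← e1, ← e3]
    refine hI.lab _ fun x hx => ?_
    rcases List.mem_append.1 hx with h3 | h3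
    · exact hl x h3
    · rw [List.mem_flatten] at h3
      obtain ⟨l', hl', hxl⟩ := h3
      rw [List.mem_map] at hl'
      obtain ⟨q, hq, rfl⟩ := hl'
      obtain ⟨y, _, rfl⟩ := lr_prt_mem hxl
      intro u hu
      simp only [Sum.inr.injEq] at hu
      rw [← hu, (r3 q hq).2]
      exact hs _
  · unfold TP
    rw [if_neg hA, if_neg hA]
    exact hI.lab l hl

end

end Pool.Agent.H74.FK
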