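import Pool.Agent.H16.FK.TargetsA

/-!
Row S2B of the board `hci_modules` (project on `MP_5607ba_lc`): two hub cells, no cycles.
-/

set_option autoImplicit false

namespace Pool.Agent.H74.FK

open Set Pool.Agent.H75.HCI Pool.Agent.H16.FK

section

variable {kx k : ℕ} {L : Type} {T : List (Idx kx k) → L}

/-! ## Places -/

theorem sel_append {α : Type} (l : List α) (w w' : List ℕ) :
    sel l (w ++ w') = sel l w ++ sel l w' := by
  unfold sel
  rw [List.filterMap_append]

theorem sel_left {α : Type} (X Y : List α) (w : List ℕ) (hw : ∀ i ∈ w, i < X.length) :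
    sel (X ++ Y) w = sel X w := by
  unfold sel
  refine List.filterMap_congr fun i hi => ?_
  rw [List.getElem?_append_left (hw i hi)]

theorem sel_right {α : Type} (X Y : List α) (w : List ℕ) :
    sel (X ++ Y) (w.map fun i => X.length + i) = sel Y w := by
  unfold sel
  rw [List.filterMap_map]
  refine List.filterMap_congr fun i _ => ?_
  simp only [Function.comp]
  rw [List.getElem?_append_right (by omega)]
  congr 1
  omega

/-- Selecting places in both parts. -/
theorem ft_two (hF : FTx T) {X Y X' Y' : List (Idx kx k)} (hX : X.length = X'.length)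
    (hY : Y.length = Y'.length) (h : T (X ++ Y) = T (X' ++ Y')) (w : List ℕ) :
    T (X ++ sel Y w) = T (X' ++ sel Y' w) := by
  have h1 := hF (X ++ Y) (X' ++ Y') (List.range X.length ++ w.map fun i => X.length + i)
    (by rw [List.length_append, List.length_append, hX, hY]) h
  rw [sel_append, sel_append, sel_right, sel_left X Y _ fun i hi => List.mem_range.1 hi,
    sel_range, hX, sel_right, sel_left X' Y' _ fun i hi => List.mem_range.1 hi, sel_range] at h1
  exact h1

/-- Exchanging the two parts. -/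
theorem ft_swap (hF : FTx T) {X Y X' Y' : List (Idx kx k)} (hX : X.length = X'.length)
    (hY : Y.length = Y'.length) (h : T (X ++ Y) = T (X' ++ Y')) : T (Y ++ X) = T (Y' ++ X') := by
  have h1 := hF (X ++ Y) (X' ++ Y')
    (((List.range Y.length).map fun i => X.length + i) ++ List.range X.length)
    (by rw [List.length_append, List.length_append, hX, hY]) h
  rw [sel_append, sel_append, sel_right, sel_left X Y _ fun i hi => List.mem_range.1 hi,
    sel_range, sel_range, hX, hY, sel_right, sel_left X' Y' _ fun i hi => List.mem_range.1 hi,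
    sel_range, sel_range] at h1
  exact h1

/-! ## Parts of rows -/

theorem prt_len (i m : ℕ) (a : List (Fin k)) : (prt i m a : List (Idx kx k)).length = a.length := by
  rw [prt, List.length_map]

theorem row_len (i m : ℕ) : (row i m : List (Idx kx k)).length = k := by
  rw [row, prt_len, List.length_finRange]

theorem hub_len (i : ℕ) (b : List (Fin kx)) : (hub i b : List (Idx kx k)).length = b.length := by
  rw [hub, List.length_map]

theorem prt_nodup {i m : ℕ} {a : List (Fin k)} :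
    (prt i m a : List (Idx kx k)).Nodup ↔ a.Nodup := by
  rw [prt]
  refine List.nodup_map_iff ?_
  intro x y h
  simpa using h

theorem hub_nodup {i : ℕ} {b : List (Fin kx)} :
    (hub i b : List (Idx kx k)).Nodup ↔ b.Nodup := by
  rw [hub]
  refine List.nodup_map_iff ?_
  intro x y h
  simpa using h

theorem sel_prt (i m : ℕ) (a : List (Fin k)) (w : List ℕ) :
    sel (prt i m a : List (Idx kx k)) w = prt i m (sel a w) := by
  rw [prt, prt, sel_map]

theorem prt_of_class (i m : ℕ) (l : List (Idx kx k)) (h : ∀ p ∈ l, ∃ y, p = (i, .inr (m, y))) :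
    ∃ a : List (Fin k), l = prt i m a := by
  induction l with
  | nil => exact ⟨[], rfl⟩
  | cons p l ih =>
    obtain ⟨a, ha⟩ := ih fun q hq => h q (List.mem_cons_of_mem _ hq)
    obtain ⟨y, hy⟩ := h p (List.mem_cons_self ..)
    refine ⟨y :: a, ?_⟩
    rw [ha, hy]
    rfl

theorem map_sh_prt (φ : ℕ → ℕ) (i m : ℕ) (a : List (Fin k)) :
    (prt i m a : List (Idx kx k)).map (sh φ) = prt (φ i) m a := by
  rw [prt, prt, List.map_map]
  rfl

theorem map_sh_row (φ : ℕ → ℕ) (i m : ℕ) :
    (row i m : List (Idx kx k)).map (sh φ) = row (φ i) m := map_sh_prt _ _ _ _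

theorem map_sh_hub (φ : ℕ → ℕ) (i : ℕ) (b : List (Fin kx)) :
    (hub i b : List (Idx kx k)).map (sh φ) = hub (φ i) b := by
  rw [hub, hub, List.map_map]
  rfl

theorem T_sh (hT : PatInv T) {φ : ℕ → ℕ} (hφ : StrictMono φ) (l : List (Idx kx k)) :
    T (l.map (sh φ)) = T l :=
  hT (sh φ) univ (pat_sh hφ univ) l fun _ _ => trivial

theorem succ_mono : StrictMono (fun i : ℕ => i + 1) := fun a b h => by
  simpa using h

/-! ## Twists -/

theorem tw_id : Tw T (List.finRange k) := ⟨List.nodup_finRange k, List.length_finRange, rfl⟩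

/-- The places of the inverse of a twist. -/
theorem exists_inv (a : List (Fin k)) (h1 : a.Nodup) (h2 : a.length = k) :
    ∃ w : List ℕ, w.Nodup ∧ w.length = k ∧ (∀ i ∈ w, i < k) ∧ sel a w = List.finRange k := by
  classical
  have hmem : ∀ y : Fin k, y ∈ a := by
    intro y
    have h3 : a.toFinset = Finset.univ := by
      apply Finset.eq_univ_of_card
      rw [List.toFinset_card_of_nodup h1, h2, Fintype.card_fin]
    have : y ∈ a.toFinset := by rw [h3]; exact Finset.mem_univ _
    exact List.mem_toFinset.1 this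
  refine ⟨(List.finRange k).map fun y => a.idxOf y, ?_, ?_, ?_, ?_⟩
  · refine (List.nodup_map_iff_inj_on (List.nodup_finRange k)).2 ?_
    intro x _ y _ h
    exact (List.idxOf_inj (hmem x)).1 h
  · rw [List.length_map, List.length_finRange]
  · intro i hi
    rw [List.mem_map] at hi
    obtain ⟨y, _, rfl⟩ := hi
    have := List.idxOf_lt_length_of_mem (hmem y)
    rwa [h2] at this
  · unfold sel
    rw [List.filterMap_map]
    have h3 : (List.finRange k).filterMap ((fun i => a[i]?) ∘ fun y => a.idxOf y) =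
        (List.finRange k).filterMap some := by
      refine List.filterMap_congr fun y _ => ?_
      simp only [Function.comp]
      rw [List.getElem?_eq_getElem (List.idxOf_lt_length_of_mem (hmem y)), List.getElem_idxOf]
    rw [h3, List.filterMap_some]

theorem sel_nodup {α : Type} {a : List α} (ha : a.Nodup) {w : List ℕ} (hw : w.Nodup)
    (h : ∀ i ∈ w, i < a.length) : (sel a w).Nodup ∧ (sel a w).length = w.length := by
  rw [sel_eq a w h]
  refine ⟨?_, by rw [List.length_ofFn]⟩
  rw [List.nodup_ofFn]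
  intro x y hxy
  have h1 := (List.Nodup.get_inj_iff ha).1 hxy
  rw [Fin.mk.injEq] at h1
  exact (List.Nodup.get_inj_iff hw).1 h1

theorem tw_inv (hF : FTx T) {a b : List (Fin k)} (ha : Tw T a) (hb : Tw T b) {w : List ℕ}
    (hw1 : w.Nodup) (hw2 : w.length = k) (hw3 : ∀ i ∈ w, i < k)
    (hw4 : sel a w = List.finRange k) : Tw T (sel b w) := by
  obtain ⟨h1, h2⟩ := sel_nodup hb.1 hw1 (by rw [hb.2.1]; exact hw3)
  refine ⟨h1, h2.trans hw2, ?_⟩
  have h3 := hF (prt 0 0 b) (prt 0 0 a) w
    (by rw [prt_len, prt_len, ha.2.1, hb.2.1]) (hb.2.2.trans ha.2.2.symm)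
  rw [sel_prt, sel_prt, hw4] at h3
  exact h3

/-! ## Rows in two chunks -/

theorem two_rows (hT : PatInv T) {c c' : ℕ} (h : c' < c) (a b : List (Fin k)) :
    T (prt c' 0 b ++ prt c 0 a) = T (prt 0 0 b ++ prt 1 0 a) := by
  have h1 := hT (fun p => (if p.1 = c' then 0 else 1, p.2)) {p | p.1 = c' ∨ p.1 = c}
    ⟨fun p _ => rfl, ?_, ?_⟩ (prt c' 0 b ++ prt c 0 a) ?_
  · rw [List.map_append, prt, prt, List.map_map, List.map_map] at h1
    have h2 : List.map ((fun p : Idx kx k => (if p.1 = c' then 0 else 1, p.2)) ∘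
        fun y => ((c', .inr (0, y)) : Idx kx k)) b = prt 0 0 b := by
      rw [prt]
      refine List.map_congr_left fun y _ => ?_
      simp
    have h3 : List.map ((fun p : Idx kx k => (if p.1 = c' then 0 else 1, p.2)) ∘
        fun y => ((c, .inr (0, y)) : Idx kx k)) a = prt 1 0 a := by
      rw [prt]
      refine List.map_congr_left fun y _ => ?_
      simp [h.ne']
    rw [h2, h3] at h1
    exact h1.symm
  · intro p hp q hq
    have hp' : p.1 = c' ∨ p.1 = c := hp
    have hq' : q.1 = c' ∨ q.1 = c := hq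
    dsimp only
    split_ifs <;> omega
  · intro p _ q _ _ u u' v v' e1 e2 e3 e4
    simp only at e3 e4
    rw [e1, Sum.inr.injEq] at e3
    rw [e2, Sum.inr.injEq] at e4
    rw [e3, e4]
  · intro x hx
    rw [List.mem_append, prt, prt, List.mem_map, List.mem_map] at hx
    rcases hx with ⟨y, _, rfl⟩ | ⟨y, _, rfl⟩
    · exact Or.inl rfl
    · exact Or.inr rfl

theorem lt_rows (hT : PatInv T)
    (hA : ∀ X Y : List (Idx kx k), X.length = k → Y.length = k → Lt T X Y → ¬ Lt T Y X)
    {c c' : ℕ} (hc : c ≠ c') {a b : List (Fin k)} (ha : Tw T a) (hb : Tw T b)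
    (h : Lt T (prt c 0 a) (prt c' 0 b)) : c < c' := by
  rcases lt_trichotomy c c' with h1 | h1 | h1
  · exact h1
  · exact absurd h1 hc
  · refine absurd ⟨b, a, hb, ha, two_rows hT h1 a b⟩ (hA _ _ ?_ ?_ h)
    · rw [prt_len, ha.2.1]
    · rw [prt_len, hb.2.1]

/-! ## Images of cells -/

theorem class_row {cl : Fin kx → Fin kx} {x : Idx kx k} {i m : ℕ}
    (h : ec cl x = (i, .inr m)) : ∃ y, x = (i, .inr (m, y)) := by
  obtain ⟨j, z⟩ := x
  simp only [ec, Prod.mk.injEq] at h
  obtain ⟨rfl, h2⟩ := h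
  rcases z with b | ⟨m', y⟩
  · simp at h2
  · simp only [Sum.elim_inr, Sum.inr.injEq] at h2
    exact ⟨y, by rw [h2]⟩

theorem one_row (hT : PatInv T) (c : ℕ) (a : List (Fin k)) :
    T (prt c 0 a) = T (prt 0 0 a) := by
  have h1 := T_sh hT (φ := fun i => i + c) (fun x y h => by simpa using h) (prt 0 0 a)
  rw [map_sh_prt] at h1
  simpa using h1

theorem cell_to_row {cl : Fin kx → Fin kx} {f : Idx kx k → Idx kx k} {A : Set (Idx kx k)}
    (hT : PatInv T) (hE : Emb T (ec cl) T (ec cl) f A) (X : List (Idx kx k))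
    (hXA : ∀ p ∈ X, p ∈ A) (hXn : X.Nodup) (hXl : X.length = k) (hXT : T X = T (row 0 0))
    (i : ℕ) (hc : ∀ p ∈ X, ec cl (f p) = (i, .inr 0)) :
    ∃ a, X.map f = prt i 0 a ∧ Tw T a := by
  obtain ⟨a, ha⟩ := prt_of_class i 0 (X.map f) (by
    intro q hq
    rw [List.mem_map] at hq
    obtain ⟨p, hp, rfl⟩ := hq
    exact class_row (hc p hp))
  have hn : (X.map f).Nodup :=
    (List.nodup_map_iff_inj_on hXn).2 fun x hx y hy h => hE.inj (hXA x hx) (hXA y hy) h
  refine ⟨a, ha, ?_, ?_, ?_⟩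
  · rw [ha] at hn
    exact prt_nodup.1 hn
  · rw [← prt_len (kx := kx) i 0 a, ← ha, List.length_map, hXl]
  · rw [← one_row hT i a, ← ha, hE.lab X hXA, hXT]

/-- Two cells mapped to rows. -/
theorem lt_map {cl : Fin kx → Fin kx} {f : Idx kx k → Idx kx k} {A : Set (Idx kx k)}
    (hE : Emb T (ec cl) T (ec cl) f A) {X Y : List (Idx kx k)} (hX : ∀ p ∈ X, p ∈ A)
    (hY : ∀ p ∈ Y, p ∈ A) (h : Lt T X Y) : Lt T (X.map f) (Y.map f) := by
  obtain ⟨a, b, ha, hb, h1⟩ := h
  refine ⟨a, b, ha, hb, ?_⟩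
  rw [← List.map_append, hE.lab (X ++ Y) fun p hp => ?_]
  · exact h1
  · rcases List.mem_append.1 hp with h2 | h2
    · exact hX p h2
    · exact hY p h2

theorem pf_S2B : T_S2B := by
  classical
  intro kx k L T cl In J0 J1 hk hT hF hL hIn hS hperm hl0 hl1 hcl ht0 ht1 hA h1 h2 h3
  have hnd : (J0 ++ J1).Nodup := hperm.nodup_iff.2 (List.nodup_finRange kx)
  have hn0 : J0.Nodup := (List.nodup_append.1 hnd).1
  have hn1 : J1.Nodup := (List.nodup_append.1 hnd).2.1
  have hdis : ∀ b, b ∈ J0 → b ∉ J1 := fun b hb hb' => (List.nodup_append.1 hnd).2.2 b hb b hb' rfl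
  obtain ⟨b0, hb0⟩ : ∃ b, b ∈ J0 := List.exists_mem_of_length_pos (by omega)
  obtain ⟨b1, hb1⟩ : ∃ b, b ∈ J1 := List.exists_mem_of_length_pos (by omega)
  have hcl0 : ∀ b ∈ J0, cl b = cl b0 := fun b hb => (hcl b b0).2 (Or.inl ⟨hb, hb0⟩)
  have hcl1 : ∀ b ∈ J1, cl b = cl b1 := fun b hb => (hcl b b1).2 (Or.inr ⟨hb, hb1⟩)
  have hne : cl b0 ≠ cl b1 := by
    intro h
    rcases (hcl b0 b1).1 h with h4 | h4
    · exact hdis b1 h4.2 hb1
    · exact hdis b0 hb0 h4.1
  have memhub : ∀ (i : ℕ) (J : List (Fin kx)) (p : Idx kx k), p ∈ hub i J →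
      ∃ b ∈ J, p = (i, .inl b) := by
    intro i J p hp
    rw [hub, List.mem_map] at hp
    obtain ⟨b, hb, rfl⟩ := hp
    exact ⟨b, hb, rfl⟩
  have memrow : ∀ (i : ℕ) (p : Idx kx k), p ∈ row i 0 → ∃ y, p = (i, .inr (0, y)) := by
    intro i p hp
    rw [row, prt, List.mem_map] at hp
    obtain ⟨y, _, rfl⟩ := hp
    exact ⟨y, rfl⟩
  have rowT : ∀ i : ℕ, T (row i 0) = T (row 0 0) := fun i => one_row hT i _
  have rown : ∀ i : ℕ, (row i 0 : List (Idx kx k)).Nodup := fun i =>
    prt_nodup.2 (List.nodup_finRange k)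
  have hubT : ∀ (i : ℕ) (J : List (Fin kx)), T (hub i J) = T (hub 0 J) := by
    intro i J
    have h4 := T_sh hT (φ := fun j => j + i) (fun x y h => by simpa using h) (hub 0 J)
    rw [map_sh_hub] at h4
    simpa using h4
  by_cases hI1 : cl b1 ∈ In
  · by_cases hI0 : cl b0 ∈ In
    · -- both classes are in the s-part
      obtain ⟨f, hE, himg, _⟩ := hS.hom ∅
        {((0 : ℕ), (.inr 0 : Fin kx ⊕ ℕ)), (0, .inl (cl b0)), (0, .inl (cl b1))}
        {((0 : ℕ), (.inr 0 : Fin kx ⊕ ℕ)), (1, .inr 0), (2, .inr 0)}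
        (by simp) (by
          intro d hd
          simp only [Finset.mem_insert, Finset.mem_singleton] at hd
          rcases hd with rfl | rfl | rfl
          · intro β hβ; simp at hβ
          · intro β hβ; simp only [Sum.inl.injEq] at hβ; rw [← hβ]; exact hI0
          · intro β hβ; simp only [Sum.inl.injEq] at hβ; rw [← hβ]; exact hI1) (by
          intro d hd
          simp only [Finset.mem_insert, Finset.mem_singleton] at hd
          rcases hd with rfl | rfl | rfl <;> (intro β hβ; simp at hβ)) (by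
          rw [Finset.card_insert_of_notMem, Finset.card_insert_of_notMem, Finset.card_singleton,
            Finset.card_insert_of_notMem, Finset.card_insert_of_notMem, Finset.card_singleton]
          · simp
          · simp
          · simp only [Finset.mem_singleton, Prod.mk.injEq, Sum.inl.injEq, true_and]
            exact hne
          · simp)
      set A : Set (Idx kx k) := Pt (ec cl) univ ((((∅ : Finset (ℕ × (Fin kx ⊕ ℕ))) : Set _)) ∪
        (({((0 : ℕ), (.inr 0 : Fin kx ⊕ ℕ)), (0, .inl (cl b0)), (0, .inl (cl b1))} :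
          Finset (ℕ × (Fin kx ⊕ ℕ))) : Set (ℕ × (Fin kx ⊕ ℕ)))) with hAdef
      have hAr : ∀ p ∈ (row 0 0 : List (Idx kx k)), p ∈ A := by
        intro p hp
        obtain ⟨y, rfl⟩ := memrow 0 p hp
        refine ⟨trivial, Or.inr ?_⟩
        simp [ec]
      have hA0 : ∀ p ∈ (hub 0 J0 : List (Idx kx k)), p ∈ A := by
        intro p hp
        obtain ⟨b, hb, rfl⟩ := memhub 0 J0 p hp
        refine ⟨trivial, Or.inr ?_⟩
        simp [ec, hcl0 b hb]
      have hA1 : ∀ p ∈ (hub 0 J1 : List (Idx kx k)), p ∈ A := by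
        intro p hp
        obtain ⟨b, hb, rfl⟩ := memhub 0 J1 p hp
        refine ⟨trivial, Or.inr ?_⟩
        simp [ec, hcl1 b hb]
      have himg' : ∀ p ∈ A, ∃ i : ℕ, ec cl (f p) = (i, .inr 0) := by
        intro p hp
        have h4 : f p ∈ f '' Pt (ec cl) univ (({((0 : ℕ), (.inr 0 : Fin kx ⊕ ℕ)),
            (0, .inl (cl b0)), (0, .inl (cl b1))} :
          Finset (ℕ × (Fin kx ⊕ ℕ))) : Set (ℕ × (Fin kx ⊕ ℕ))) := by
          refine ⟨p, ⟨trivial, ?_⟩, rfl⟩
          rcases hp.2 with h5 | h5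
          · simp at h5
          · exact h5
        rw [himg] at h4
        have h5 := h4.2
        simp only [Finset.coe_insert, Finset.coe_singleton, mem_insert_iff,
          mem_singleton_iff] at h5
        rcases h5 with h5 | h5 | h5
        · exact ⟨0, h5⟩
        · exact ⟨1, h5⟩
        · exact ⟨2, h5⟩
      have key : ∀ X : List (Idx kx k), (∀ p ∈ X, p ∈ A) → X.Nodup → X.length = k →
          T X = T (row 0 0) → ∀ x0 ∈ X, (∀ p ∈ X, ec cl p = ec cl x0) →
          ∃ (i : ℕ) (a : List (Fin k)), ec cl (f x0) = (i, .inr 0) ∧ X.map f = prt i 0 a ∧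
            Tw T a := by
        intro X hX hXn hXl hXT x0 hx0 hXc
        obtain ⟨i, hi⟩ := himg' x0 (hX x0 hx0)
        obtain ⟨a, ha1, ha2⟩ := cell_to_row hT hE X hX hXn hXl hXT i (by
          intro p hp
          rw [(hE.cls p (hX p hp) x0 (hX x0 hx0)).2 (hXc p hp)]
          exact hi)
        exact ⟨i, a, hi, ha1, ha2⟩
      have m0 : ((0, .inl b0) : Idx kx k) ∈ (hub 0 J0 : List (Idx kx k)) :=
        List.mem_map.2 ⟨b0, hb0, rfl⟩
      have m1 : ((0, .inl b1) : Idx kx k) ∈ (hub 0 J1 : List (Idx kx k)) :=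
        List.mem_map.2 ⟨b1, hb1, rfl⟩
      have mr : ((0, .inr (0, ⟨0, hk⟩)) : Idx kx k) ∈ (row 0 0 : List (Idx kx k)) :=
        List.mem_map.2 ⟨⟨0, hk⟩, List.mem_finRange _, rfl⟩
      obtain ⟨i, a, hi, ha, hta⟩ := key (row 0 0) hAr (rown 0) (row_len 0 0) rfl _ mr (by
        intro p hp
        obtain ⟨y, rfl⟩ := memrow 0 p hp
        rfl)
      obtain ⟨j, b, hj, hb, htb⟩ := key (hub 0 J0) hA0 (hub_nodup.2 hn0)
        (by rw [hub_len, hl0]) ht0 _ m0 (by
        intro p hp
        obtain ⟨b, hb, rfl⟩ := memhub 0 J0 p hp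
        simp only [ec, Sum.elim_inl, hcl0 b hb])
      obtain ⟨l, c, hl, hc, htc⟩ := key (hub 0 J1) hA1 (hub_nodup.2 hn1)
        (by rw [hub_len, hl1]) ht1 _ m1 (by
        intro p hp
        obtain ⟨b, hb, rfl⟩ := memhub 0 J1 p hp
        simp only [ec, Sum.elim_inl, hcl1 b hb])
      have d1 : i ≠ j := by
        rintro rfl
        have h4 := (hE.cls _ (hAr _ mr) _ (hA0 _ m0)).1 (hi.trans hj.symm)
        simp [ec] at h4
      have d2 : j ≠ l := by
        rintro rfl
        have h4 := (hE.cls _ (hA0 _ m0) _ (hA1 _ m1)).1 (hj.trans hl.symm)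
        simp only [ec, Sum.elim_inl, Prod.mk.injEq, Sum.inl.injEq, true_and] at h4
        exact hne h4
      have d3 : l ≠ i := by
        rintro rfl
        have h4 := (hE.cls _ (hA1 _ m1) _ (hAr _ mr)).1 (hl.trans hi.symm)
        simp [ec] at h4
      have l1 := lt_map hE hAr hA0 h1
      have l2 := lt_map hE hA0 hA1 h2
      have l3 := lt_map hE hA1 hAr h3
      rw [ha, hb] at l1
      rw [hb, hc] at l2
      rw [hc, ha] at l3
      have e1 := lt_rows hT hA d1 hta htb l1
      have e2 := lt_rows hT hA d2 htb htc l2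
      have e3 := lt_rows hT hA d3 htc hta l3
      omega
    · -- J1 in, J0 out
      obtain ⟨f, hE, himg, hfix⟩ := hS.hom {((0 : ℕ), (.inl (cl b0) : Fin kx ⊕ ℕ))}
        {((0 : ℕ), (.inl (cl b1) : Fin kx ⊕ ℕ))} {((0 : ℕ), (.inr 0 : Fin kx ⊕ ℕ))}
        (by
          intro d hd h4
          rw [Finset.mem_singleton] at hd
          subst hd
          exact hI0 (h4 _ rfl)) (by
          intro d hd
          rw [Finset.mem_singleton] at hd
          subst hd
          intro β hβ; simp only [Sum.inl.injEq] at hβ; rw [← hβ]; exact hI1) (by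
          intro d hd
          rw [Finset.mem_singleton] at hd
          subst hd
          intro β hβ; simp at hβ) rfl
      have hX : ∀ p ∈ (hub 0 J1 : List (Idx kx k)), p ∈ Pt (ec cl) univ
          (((({((0 : ℕ), (.inl (cl b0) : Fin kx ⊕ ℕ))} : Finset (ℕ × (Fin kx ⊕ ℕ))) : Set _)) ∪
          (({((0 : ℕ), (.inl (cl b1) : Fin kx ⊕ ℕ))} : Finset (ℕ × (Fin kx ⊕ ℕ))) : Set _)) := by
        intro p hp
        obtain ⟨b, hb, rfl⟩ := memhub 0 J1 p hp
        refine ⟨trivial, Or.inr ?_⟩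
        simp [ec, hcl1 b hb]
      have hX0 : ∀ p ∈ (hub 0 J0 : List (Idx kx k)), p ∈ Pt (ec cl) univ
          ((({((0 : ℕ), (.inl (cl b0) : Fin kx ⊕ ℕ))} : Finset (ℕ × (Fin kx ⊕ ℕ))) : Set _)) := by
        intro p hp
        obtain ⟨b, hb, rfl⟩ := memhub 0 J0 p hp
        refine ⟨trivial, ?_⟩
        simp [ec, hcl0 b hb]
      have hc : ∀ p ∈ (hub 0 J1 : List (Idx kx k)), ec cl (f p) = (0, .inr 0) := by
        intro p hp
        obtain ⟨b, hb, rfl⟩ := memhub 0 J1 p hp
        have h4 : f (0, .inl b) ∈ f '' Pt (ec cl) univ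
            (({((0 : ℕ), (.inl (cl b1) : Fin kx ⊕ ℕ))} : Finset (ℕ × (Fin kx ⊕ ℕ))) :
              Set (ℕ × (Fin kx ⊕ ℕ))) := by
          refine ⟨_, ⟨trivial, ?_⟩, rfl⟩
          simp [ec, hcl1 b hb]
        rw [himg] at h4
        simpa using h4.2
      obtain ⟨a, ha, hta⟩ := cell_to_row hT hE (hub 0 J1) hX (hub_nodup.2 hn1)
        (by rw [hub_len, hl1]) ht1 0 hc
      have h4 := hE.lab (hub 0 J0 ++ hub 0 J1) (by
        intro p hp
        rcases List.mem_append.1 hp with h5 | h5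
        · exact ⟨trivial, Or.inl (hX0 p h5).2⟩
        · exact hX p h5)
      have h5 : (hub 0 J0 : List (Idx kx k)).map f = hub 0 J0 := by
        have : (hub 0 J0 : List (Idx kx k)).map f = (hub 0 J0 : List (Idx kx k)).map id :=
          List.map_congr_left fun p hp => hfix p (hX0 p hp)
        rw [this, List.map_id]
      rw [List.map_append, h5, ha] at h4
      obtain ⟨a1, b1', hta1, htb1, h6⟩ := h2
      obtain ⟨w, w1, w2, w3, w4⟩ := exists_inv a hta.1 hta.2.1
      have h7 := ft_two hF (X := hub 0 J0) (Y := prt 0 0 a) (X' := prt 0 0 a1)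
        (Y' := prt 1 0 b1') (by rw [hub_len, prt_len, hl0, hta1.2.1])
        (by rw [prt_len, prt_len, hta.2.1, htb1.2.1]) (h4.trans h6) w
      rw [sel_prt, sel_prt, w4] at h7
      have h8 : Lt T (hub 0 J0) (row 0 0) :=
        ⟨a1, sel b1' w, hta1, tw_inv hF hta htb1 w1 w2 w3 w4, h7⟩
      exact hA _ _ (by rw [hub_len, hl0]) (row_len 0 0) h8 h1
  · -- J1 out
    obtain ⟨f, hE, himg, hfix⟩ := hS.hom {((1 : ℕ), (.inl (cl b1) : Fin kx ⊕ ℕ))}
      {((1 : ℕ), (.inr 0 : Fin kx ⊕ ℕ))} {((0 : ℕ), (.inr 0 : Fin kx ⊕ ℕ))}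
      (by
        intro d hd h4
        rw [Finset.mem_singleton] at hd
        subst hd
        exact hI1 (h4 _ rfl)) (by
        intro d hd
        rw [Finset.mem_singleton] at hd
        subst hd
        intro β hβ; simp at hβ) (by
        intro d hd
        rw [Finset.mem_singleton] at hd
        subst hd
        intro β hβ; simp at hβ) rfl
    have hX : ∀ p ∈ (row 1 0 : List (Idx kx k)), p ∈ Pt (ec cl) univ
        (((({((1 : ℕ), (.inl (cl b1) : Fin kx ⊕ ℕ))} : Finset (ℕ × (Fin kx ⊕ ℕ))) : Set _)) ∪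
        (({((1 : ℕ), (.inr 0 : Fin kx ⊕ ℕ))} : Finset (ℕ × (Fin kx ⊕ ℕ))) : Set _)) := by
      intro p hp
      obtain ⟨y, rfl⟩ := memrow 1 p hp
      refine ⟨trivial, Or.inr ?_⟩
      simp [ec]
    have hX1 : ∀ p ∈ (hub 1 J1 : List (Idx kx k)), p ∈ Pt (ec cl) univ
        ((({((1 : ℕ), (.inl (cl b1) : Fin kx ⊕ ℕ))} : Finset (ℕ × (Fin kx ⊕ ℕ))) : Set _)) := by
      intro p hp
      obtain ⟨b, hb, rfl⟩ := memhub 1 J1 p hp
      refine ⟨trivial, ?_⟩
      simp [ec, hcl1 b hb]
    have hc : ∀ p ∈ (row 1 0 : List (Idx kx k)), ec cl (f p) = (0, .inr 0) := by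
      intro p hp
      obtain ⟨y, rfl⟩ := memrow 1 p hp
      have h4 : f (1, .inr (0, y)) ∈ f '' Pt (ec cl) univ
          (({((1 : ℕ), (.inr 0 : Fin kx ⊕ ℕ))} : Finset (ℕ × (Fin kx ⊕ ℕ))) :
            Set (ℕ × (Fin kx ⊕ ℕ))) := by
        refine ⟨_, ⟨trivial, ?_⟩, rfl⟩
        simp [ec]
      rw [himg] at h4
      simpa using h4.2
    obtain ⟨a, ha, hta⟩ := cell_to_row hT hE (row 1 0) hX (rown 1) (row_len 1 0) (rowT 1) 0 hc
    have h4 := hE.lab (hub 1 J1 ++ row 1 0) (by
      intro p hp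
      rcases List.mem_append.1 hp with h5 | h5
      · exact ⟨trivial, Or.inl (hX1 p h5).2⟩
      · exact hX p h5)
    have h5 : (hub 1 J1 : List (Idx kx k)).map f = hub 1 J1 := by
      have : (hub 1 J1 : List (Idx kx k)).map f = (hub 1 J1 : List (Idx kx k)).map id :=
        List.map_congr_left fun p hp => hfix p (hX1 p hp)
      rw [this, List.map_id]
    rw [List.map_append, h5, ha] at h4
    have h6 := ft_swap hF (X := hub 1 J1) (Y := prt 0 0 a) (X' := hub 1 J1) (Y' := row 1 0) rfl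
      (by rw [prt_len, row_len, hta.2.1]) h4
    have h7 := hL 1 (prt 0 0 a) (hub 1 J1) (by
      intro p hp
      rw [prt, List.mem_map] at hp
      obtain ⟨y, _, rfl⟩ := hp
      exact Nat.one_pos) (by
      intro p hp
      obtain ⟨b, _, rfl⟩ := memhub 1 J1 p hp
      exact le_rfl) (hub_nodup.2 hn1) (by rw [hub_len, hl1]) ((hubT 1 J1).trans ht1)
    have h8 := T_sh hT succ_mono (row 0 0 ++ hub 0 J1)
    rw [List.map_append, map_sh_row, map_sh_hub] at h8
    have h9 : Lt T (row 0 0) (hub 0 J1) := by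
      refine ⟨a, List.finRange k, hta, tw_id, ?_⟩
      rw [← h8]
      exact h6.symm.trans h7
    exact hA _ _ (row_len 0 0) (by rw [hub_len, hl1]) h9 h3

end

end Pool.Agent.H74.FK
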